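import Pool.Agent.Lib.PolyTime.Codec
import Pool.Prelude.Def_F_458e953d

/-!
# MP_d5150c_lc: from the polynomial-time predicates of the problem to `PolyFn` and back
-/

namespace Pool.Agent.Lib.MP_d5150c_lc

open Pool.Agent.PolyTime N487b59b3 N68a2faeb N793a5b8e

/-! ### The encodings -/

/-- the encoding of a list of bits -/
def encL (l : List Bool) : List Bool := l.flatMap fun b => [true, b, false]

theorem bitEncode_list (l : List Bool) : bitEncode l = encL l := by
  show ((l.map bitEncode).map delimit).flatten = encL l
  unfold encL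
  rw [List.map_map, ← List.flatMap_def]
  rfl

theorem delimit_eq (l : List Bool) : delimit l = (l.flatMap fun b => [true, b]) ++ [false] := by
  induction l with
  | nil => rfl
  | cons b l ih => simp [delimit, ih]

/-- the encoding of a pair of lists of bits -/
def encP (p : List Bool × List Bool) : List Bool := delimit (encL p.1) ++ encL p.2

theorem bitEncode_pair (p : List Bool × List Bool) : bitEncode p = encP p := by
  show delimit (bitEncode p.1) ++ bitEncode p.2 = _
  rw [bitEncode_list, bitEncode_list]
  rfl

theorem encL_length (l : List Bool) : (encL l).length = 3 * l.length := by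
  induction l with
  | nil => rfl
  | cons b l ih =>
    have : encL (b :: l) = [true, b, false] ++ encL l := rfl
    rw [this, List.length_append, ih]
    simp; omega

theorem encP_length (p : List Bool × List Bool) :
    (encP p).length = 6 * p.1.length + 1 + 3 * p.2.length := by
  rw [encP, List.length_append, length_delimit, encL_length, encL_length]
  omega

section

variable {γ : Type} [Enc γ]

theorem poly_encL {l : γ → List Bool} (hl : PolyFn l) : PolyFn (fun c => encL (l c)) := by
  refine PolyFn.flatMap (f := fun (_ : γ) (b : Bool) => [true, b, false]) ?_ hl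
  exact PolyFn.cons (PolyFn.const true) (PolyFn.cons PolyFn.snd (PolyFn.const [false]))

theorem poly_delimit {l : γ → List Bool} (hl : PolyFn l) : PolyFn (fun c => delimit (l c)) := by
  have h : PolyFn (fun c => ((l c).flatMap fun b => [true, b]) ++ [false]) := by
    refine PolyFn.append (PolyFn.flatMap (f := fun (_ : γ) (b : Bool) => [true, b]) ?_ hl)
      (PolyFn.const [false])
    exact PolyFn.cons (PolyFn.const true) (PolyFn.cons PolyFn.snd (PolyFn.const []))
  exact h.of_eq fun c => (delimit_eq _).symm

theorem poly_encP {a b : γ → List Bool} (ha : PolyFn a) (hb : PolyFn b) :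
    PolyFn (fun c => encP (a c, b c)) :=
  PolyFn.append (poly_delimit (poly_encL ha)) (poly_encL hb)

end

/-! ### Decoding -/

/-- one step of the decoder of lists -/
def dstep (s : ℕ × List Bool) (b : Bool) : ℕ × List Bool :=
  if s.1 = 0 then (1, s.2) else if s.1 = 1 then (2, b :: s.2) else (0, s.2)

/-- decode a list of bits -/
def decL (l : List Bool) : List Bool := (l.foldl dstep (0, [])).2.reverse

theorem foldl_dstep (l : List Bool) : ∀ acc : List Bool,
    (encL l).foldl dstep (0, acc) = (0, l.reverse ++ acc) := by
  induction l with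
  | nil => intro acc; rfl
  | cons b l ih =>
    intro acc
    have : encL (b :: l) = [true, b, false] ++ encL l := rfl
    rw [this, List.foldl_append]
    show (encL l).foldl dstep (0, b :: acc) = _
    rw [ih]
    simp

theorem decL_encL (l : List Bool) : decL (encL l) = l := by
  unfold decL
  rw [foldl_dstep]
  simp

theorem poly_dstep {γ : Type} [Enc γ] {s : γ → ℕ × List Bool} {b : γ → Bool} (hs : PolyFn s)
    (hb : PolyFn b) : PolyFn (fun c => dstep (s c) (b c)) := by
  unfold dstep
  have h1 : PolyFn (fun c => (s c).1) := PolyFn.fst.comp hs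
  have h2 : PolyFn (fun c => (s c).2) := PolyFn.snd.comp hs
  refine PolyFn.ite (PolyFn.decide_eq_nat h1 (PolyFn.const 0)) ((PolyFn.const 1).pair h2) ?_
  exact PolyFn.ite (PolyFn.decide_eq_nat h1 (PolyFn.const 1)) ((PolyFn.const 2).pair
    (PolyFn.cons hb h2)) ((PolyFn.const 0).pair h2)

theorem size_dstep (s : ℕ × List Bool) (b : Bool) : size (dstep s b) ≤ size s + 8 := by
  obtain ⟨n, l⟩ := s
  have hb := size_bool b
  unfold dstep
  split_ifs with h1 h2
  · change n = 0 at h1
    subst h1
    simp only [size_prod, size_nat]
    omega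
  · change n = 1 at h2
    subst h2
    simp only [size_prod, size_nat, size_list_cons]
    omega
  · simp only [size_prod, size_nat]
    omega

theorem size_foldl_le {β : Type} [Enc β] {st : β → Bool → β} {K : ℕ}
    (h : ∀ s b, size (st s b) ≤ size s + K) (l : List Bool) : ∀ s : β,
    size (l.foldl st s) ≤ size s + K * l.length := by
  induction l with
  | nil => intro s; simp
  | cons b l ih =>
    intro s
    rw [List.foldl_cons, List.length_cons]
    have h1 := ih (st s b)
    have h2 := h s b
    rw [Nat.mul_succ]
    omega

theorem poly_foldl_bits {γ β : Type} [Enc γ] [Enc β] {st : β → Bool → β} {K : ℕ} (s0 : β)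
    (hst : PolyFn fun p : β × Bool => st p.1 p.2)
    (h : ∀ s b, size (st s b) ≤ size s + K) {l : γ → List Bool} (hl : PolyFn l) :
    PolyFn (fun c => (l c).foldl st s0) := by
  obtain ⟨g, hg, hgs⟩ := hl.size_le
  refine PolyFn.foldl (γ := γ) (step := fun _ => st) (init := fun _ => s0) (l := l)
    (hst.comp PolyFn.snd) (PolyFn.const s0) hl ?_
  refine ⟨fun n => size s0 + K * g n, (PB.const _).add ((PB.const K).mul hg), ?_⟩
  intro c i hi
  have h1 := size_foldl_le h ((l c).take i) s0
  have h2 : ((l c).take i).length ≤ g (size c) := by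
    refine le_trans ?_ ((length_le_size (l c)).trans (hgs c))
    rw [List.length_take]; omega
  exact h1.trans (Nat.add_le_add_left (Nat.mul_le_mul_left _ h2) _)

theorem poly_decL {γ : Type} [Enc γ] {l : γ → List Bool} (hl : PolyFn l) :
    PolyFn (fun c => decL (l c)) :=
  PolyFn.reverse (PolyFn.snd.comp (poly_foldl_bits (0, []) (poly_dstep PolyFn.fst PolyFn.snd)
    size_dstep hl))

/-- one step of the decoder of pairs -/
def pstep (s : ℕ × List Bool × List Bool) (b : Bool) : ℕ × List Bool × List Bool :=
  if s.1 = 0 then (if b = true then (1, s.2) else (2, s.2))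
  else if s.1 = 1 then (0, b :: s.2.1, s.2.2) else (2, s.2.1, b :: s.2.2)

/-- decode a pair -/
def decP (l : List Bool) : List Bool × List Bool :=
  (decL (l.foldl pstep (0, [], [])).2.1.reverse, decL (l.foldl pstep (0, [], [])).2.2.reverse)

theorem foldl_pstep_delimit (l : List Bool) : ∀ a b : List Bool,
    (delimit l).foldl pstep (0, a, b) = (2, l.reverse ++ a, b) := by
  induction l with
  | nil => intro a b; rfl
  | cons c l ih =>
    intro a b
    show (delimit l).foldl pstep (0, c :: a, b) = _
    rw [ih]
    simp

theorem foldl_pstep_two (l : List Bool) : ∀ a b : List Bool,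
    l.foldl pstep (2, a, b) = (2, a, l.reverse ++ b) := by
  induction l with
  | nil => intro a b; rfl
  | cons c l ih =>
    intro a b
    show l.foldl pstep (2, a, c :: b) = _
    rw [ih]
    simp

theorem decP_encP (p : List Bool × List Bool) : decP (encP p) = p := by
  unfold decP encP
  rw [List.foldl_append, foldl_pstep_delimit, foldl_pstep_two]
  simp only [List.append_nil, List.reverse_reverse, decL_encL]

theorem poly_pstep {γ : Type} [Enc γ] {s : γ → ℕ × List Bool × List Bool} {b : γ → Bool}
    (hs : PolyFn s) (hb : PolyFn b) : PolyFn (fun c => pstep (s c) (b c)) := by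
  unfold pstep
  have h1 : PolyFn (fun c => (s c).1) := PolyFn.fst.comp hs
  have h2 : PolyFn (fun c => (s c).2) := PolyFn.snd.comp hs
  have h3 : PolyFn (fun c => (s c).2.1) := PolyFn.fst.comp h2
  have h4 : PolyFn (fun c => (s c).2.2) := PolyFn.snd.comp h2
  refine PolyFn.ite (PolyFn.decide_eq_nat h1 (PolyFn.const 0)) ?_ ?_
  · exact PolyFn.ite (hb.of_eq fun c => by simp)
      ((PolyFn.const 1).pair h2) ((PolyFn.const 2).pair h2)
  · exact PolyFn.ite (PolyFn.decide_eq_nat h1 (PolyFn.const 1)) ((PolyFn.const 0).pair
      ((PolyFn.cons hb h3).pair h4)) ((PolyFn.const 2).pair (h3.pair (PolyFn.cons hb h4)))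

theorem size_pstep (s : ℕ × List Bool × List Bool) (b : Bool) :
    size (pstep s b) ≤ size s + 8 := by
  obtain ⟨n, l, l'⟩ := s
  have hb := size_bool b
  unfold pstep
  split_ifs with h1 h2 h2
  · change n = 0 at h1
    subst h1
    simp only [size_prod, size_nat]
    omega
  · change n = 0 at h1
    subst h1
    simp only [size_prod, size_nat]
    omega
  · simp only [size_prod, size_nat, size_list_cons]
    omega
  · change ¬ n = 0 at h1
    simp only [size_prod, size_nat, size_list_cons]
    omega

theorem poly_decP {γ : Type} [Enc γ] {l : γ → List Bool} (hl : PolyFn l) :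
    PolyFn (fun c => decP (l c)) := by
  have h := poly_foldl_bits (0, [], []) (poly_pstep PolyFn.fst PolyFn.snd) size_pstep hl
  have h2 := PolyFn.snd.comp h
  exact (poly_decL (PolyFn.reverse (PolyFn.fst.comp h2))).pair
    (poly_decL (PolyFn.reverse (PolyFn.snd.comp h2)))

/-! ### The bridge -/

/-- a polynomial-time function of the problem statement, on encoded inputs -/
theorem exists_polyFn {α β : Type} [N487b59b3 α] [N487b59b3 β] {f : α → β} (h : IsPolyTime f) :
    ∃ F : List Bool → List Bool, PolyFn F ∧ ∀ a, F (bitEncode a) = bitEncode (f a) := by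
  obtain ⟨h⟩ := h
  obtain ⟨pr, B, hU⟩ := U_correct h.toTM2ComputableInTime
  refine ⟨fun w => U pr w (h.time.eval w.length * B), ?_, ?_⟩
  · exact poly_U.comp ((PolyFn.const pr).pair (PolyFn.id.pair
      (PolyFn.mul (poly_eval h.time (PolyFn.length PolyFn.id)) (PolyFn.const B))))
  · intro a
    exact hU a _ le_rfl

/-- predicates on pairs -/
theorem polyFn_of_isPolyTime_pred {R : List Bool × List Bool → Bool} (h : IsPolyTime R) :
    PolyFn R := by
  obtain ⟨F, hF, hFR⟩ := exists_polyFn h
  have h1 : PolyFn (fun p : List Bool × List Bool => (F (encP (p.1, p.2))).headD false) :=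
    PolyFn.headD (hF.comp (poly_encP PolyFn.fst PolyFn.snd)) (PolyFn.const false)
  refine h1.of_eq ?_
  intro p
  have := hFR p
  rw [bitEncode_pair] at this
  show (F (encP p)).headD false = R p
  rw [this]
  rfl

/-- a predicate on pairs computed by a `PolyFn` is polynomial-time in the sense of the problem -/
theorem isPolyTime_of_polyFn {R : List Bool × List Bool → Bool} (h : PolyFn R) :
    IsPolyTime R := by
  have h1 : PolyFn (fun l : List Bool => R (decP l)) := h.comp (poly_decP PolyFn.id)
  refine PolyFn.toTM2 h1 (bitEncode : List Bool × List Bool → List Bool) R ?_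
  intro p
  show R (decP (bitEncode p)) = R p
  rw [bitEncode_pair, decP_encP]

end Pool.Agent.Lib.MP_d5150c_lc
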