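import Pool.Prelude.Def_F_458e953d

/-!
# MP_d5150c_lc: reductions in time `O(n ^ k)` with short advice
-/

namespace Pool.Agent.Lib.MP_d5150c_lc

open Filter N487b59b3 N68a2faeb N793a5b8e

/-- The function `g`, which has an advice string and an input string as arguments, is computed by
a Turing machine in time `O(n ^ k)`, where `n` is the length of the encoding of the pair of
arguments. -/
def ComputableInDegree (k : ℕ) (g : List Bool × List Bool → List Bool) : Prop :=
  ∃ (h : Turing.TM2ComputableInTime (bitEncode : List Bool × List Bool → List Bool)
      (bitEncode : List Bool → List Bool) g) (C : ℕ), ∀ n, h.time n ≤ C * n ^ k + C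

/-- `A` is many-one reducible to `B` by a function computable in time `O(n ^ k)` with an advice
string `a n` for the inputs of length `n`, where `|a n| ^ c ≤ n` for all large `n`. -/
def AdviceReducible (k c : ℕ) (A B : DecisionProblem) : Prop :=
  ∃ (g : List Bool × List Bool → List Bool) (a : ℕ → List Bool),
    ComputableInDegree k g ∧ (∀ᶠ n in atTop, (a n).length ^ c ≤ n) ∧
      ∀ x, A x = B (g (a x.length, x))

end Pool.Agent.Lib.MP_d5150c_lc
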