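import Pool.Prelude.Def_F_458e953d

/-!
# MP_d5150c_lc: the class `UP` with one bit of advice
-/

namespace Pool.Agent.Lib.MP_d5150c_lc

open N68a2faeb N793a5b8e

/-- The class `UP/1`: there is one advice bit `b n` for the inputs of length `n`; the verifier gets
the advice bit as an additional first bit of the input, and has at most one witness on every input
together with the advice bit belonging to its length. -/
def UPOneBit : DecisionComplexityClass :=
  { L | ∃ (b : ℕ → Bool) (p : Polynomial ℕ) (R : List Bool × List Bool → Bool),
      IsPolyTime R ∧
      (∀ x, L x ↔ ∃ w : List Bool, w.length ≤ p.eval x.length ∧ R (b x.length :: x, w)) ∧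
      ∀ x w w', w.length ≤ p.eval x.length → w'.length ≤ p.eval x.length →
        R (b x.length :: x, w) → R (b x.length :: x, w') → w = w' }

end Pool.Agent.Lib.MP_d5150c_lc
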