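import Pool.Agent.Lib.MP_d5150c_lc.Strings

/-!
# MP_d5150c_lc: the diagonalization
-/

namespace Pool.Agent.Lib.MP_d5150c_lc

open Pool.Agent.PolyTime N487b59b3 N68a2faeb N793a5b8e

theorem size_bits_le (l : List Bool) : size l ≤ 4 * l.length + 1 := by
  have := size_list_le (l := l) (B := 3) (fun a _ => size_bool a)
  omega

theorem length_le_size' (l : List Bool) : l.length ≤ size l := length_le_size l

/-- a unary numeral as a list of a given length -/
theorem PB.le_poly {g : ℕ → ℕ} (h : PB g) : ∃ p : Polynomial ℕ, ∀ n, g n ≤ p.eval n := h.2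

/-- Membership in `UP` from a `PolyFn` relation. -/
theorem mem_UP {D : List Bool → Bool} {R : List Bool × List Bool → Bool} (hR : PolyFn R)
    (huniq : ∀ x u u', R (x, u) = true → R (x, u') = true → u = u')
    (hD : ∀ x, D x = true ↔ ∃ u, R (x, u) = true)
    (hb : ∃ g : ℕ → ℕ, PB g ∧ ∀ x u, R (x, u) = true → u.length ≤ g (size x)) :
    D ∈ UP := by
  obtain ⟨g, hg, hgb⟩ := hb
  obtain ⟨p, hp⟩ := hg.2
  refine ⟨p.comp (4 * Polynomial.X + 1), R, isPolyTime_of_polyFn hR, ?_, ?_⟩
  · intro x
    have hx : ∀ u, R (x, u) = true → u.length ≤ (p.comp (4 * Polynomial.X + 1)).eval x.length := by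
      intro u hu
      refine (hgb x u hu).trans ((hg.1 (size_bits_le x)).trans ((hp _).trans ?_))
      rw [Polynomial.eval_comp]
      simp
    constructor
    · intro h
      obtain ⟨u, hu⟩ := (hD x).1 h
      exact ⟨u, hx u hu, hu⟩
    · rintro ⟨u, _, hu⟩
      exact (hD x).2 ⟨u, hu⟩
  · intro x w w' _ _ h h'
    exact huniq x w w' h h'

/-- The unambiguous verifier of the family `x ↦ L (e (α, x))`. -/
theorem exists_V {L : List Bool → Bool} (hL : L ∈ UP) {e : List Bool × List Bool → List Bool}
    (he : PolyFn e) :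
    ∃ (V : List Bool × List Bool × List Bool → Bool) (q : Polynomial ℕ), PolyFn V ∧
      (∀ a x, L (e (a, x)) = true ↔ ∃ w, V (a, x, w) = true) ∧
      (∀ a x w w', V (a, x, w) = true → V (a, x, w') = true → w = w') ∧
      (∀ a x w, V (a, x, w) = true → w.length ≤ q.eval (a.length + x.length)) := by
  obtain ⟨p, R, hR, hLR, huniq⟩ := hL
  have hR' := polyFn_of_isPolyTime_pred hR
  have h1 : PolyFn (fun c : List Bool × List Bool × List Bool => e (c.1, c.2.1)) :=
    he.comp (PolyFn.fst.pair (PolyFn.fst.comp PolyFn.snd))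
  have h2 : PolyFn (fun c : List Bool × List Bool × List Bool => c.2.2) :=
    PolyFn.snd.comp PolyFn.snd
  obtain ⟨g, hg, hgs⟩ := he.size_le
  obtain ⟨r, hr⟩ := hg.2
  refine ⟨fun c => decide (c.2.2.length ≤ p.eval (e (c.1, c.2.1)).length) &&
    R (e (c.1, c.2.1), c.2.2), p.comp (r.comp (4 * Polynomial.X + 3)), ?_, ?_, ?_, ?_⟩
  · exact PolyFn.and (PolyFn.decide_le (PolyFn.length h2) (poly_eval p (PolyFn.length h1)))
      (hR'.comp (h1.pair h2))
  · intro a x
    have := hLR (e (a, x))
    constructor
    · intro h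
      obtain ⟨w, hw, hw'⟩ := this.1 h
      exact ⟨w, by simp [hw, hw']⟩
    · rintro ⟨w, hw⟩
      simp only [Bool.and_eq_true, decide_eq_true_eq] at hw
      exact this.2 ⟨w, hw.1, hw.2⟩
  · intro a x w w' hw hw'
    simp only [Bool.and_eq_true, decide_eq_true_eq] at hw hw'
    exact huniq _ w w' hw.1 hw'.1 hw.2 hw'.2
  · intro a x w hw
    simp only [Bool.and_eq_true, decide_eq_true_eq] at hw
    refine hw.1.trans ?_
    rw [Polynomial.eval_comp]
    refine poly_mono p ?_
    refine (length_le_size' _).trans ((hgs (a, x)).trans ?_)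
    refine (hg.1 (show size (a, x) ≤ 4 * (a.length + x.length) + 3 by
      rw [size_prod]
      have ha := size_bits_le a
      have hx := size_bits_le x
      omega)).trans ((hr _).trans ?_)
    rw [Polynomial.eval_comp]
    simp

section diag

variable (V : List Bool × List Bool × List Bool → Bool) (Q : Polynomial ℕ)

/-- blocks of a parsed input -/
def blk (z : List Bool) (i : ℕ) : List Bool := (parse z).getD i []

/-- The relation defining the diagonal language. -/
def RD (c : List Bool × List Bool) : Bool :=
  if (parse c.1).length = 3 then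
    V (blk c.1 2, S1 Q (blk c.1 0).length (blk c.1 1) (blk c.1 2) [], c.2)
  else if (parse c.1).length = 4 then
    if (blk c.1 3).length < Q.eval (blk c.1 0).length then
      decide (c.2 = encP (decP c.2)) &&
      (V (blk c.1 2, S1 Q (blk c.1 0).length (blk c.1 1) (blk c.1 2) (blk c.1 3 ++ [false]),
        (decP c.2).1) &&
      V (blk c.1 2, S1 Q (blk c.1 0).length (blk c.1 1) (blk c.1 2) (blk c.1 3 ++ [true]),
        (decP c.2).2))
    else
      decide (c.2 = []) &&
        !V (blk c.1 1, S0 (blk c.1 0).length (blk c.1 1) (blk c.1 2), strip (blk c.1 3))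
  else false

variable {V Q}

theorem poly_blk {γ : Type} [Enc γ] {z : γ → List Bool} (hz : PolyFn z) (i : ℕ) :
    PolyFn (fun c => blk (z c) i) :=
  PolyFn.getD (poly_parse hz) (PolyFn.const i) (PolyFn.const [])

theorem poly_RD (hV : PolyFn V) : PolyFn (RD V Q) := by
  have hz : PolyFn (fun c : List Bool × List Bool => c.1) := PolyFn.fst
  have hu : PolyFn (fun c : List Bool × List Bool => c.2) := PolyFn.snd
  have hlen := PolyFn.length (poly_parse hz)
  have hm := PolyFn.length (poly_blk hz 0)
  have ha := poly_blk hz 1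
  have hb := poly_blk hz 2
  have hy := poly_blk hz 3
  have hdu := poly_decP hu
  have hdu1 := PolyFn.fst.comp hdu
  have hdu2 := PolyFn.snd.comp hdu
  have hif : PolyFn (fun c : List Bool × List Bool =>
    if (parse c.1).length = 3 then
      V (blk c.1 2, S1 Q (blk c.1 0).length (blk c.1 1) (blk c.1 2) [], c.2)
    else if (parse c.1).length = 4 then
      if (blk c.1 3).length < Q.eval (blk c.1 0).length then
        decide (c.2 = encP (decP c.2)) &&
        (V (blk c.1 2, S1 Q (blk c.1 0).length (blk c.1 1) (blk c.1 2) (blk c.1 3 ++ [false]),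
          (decP c.2).1) &&
        V (blk c.1 2, S1 Q (blk c.1 0).length (blk c.1 1) (blk c.1 2) (blk c.1 3 ++ [true]),
          (decP c.2).2))
      else
        decide (c.2 = []) &&
          !V (blk c.1 1, S0 (blk c.1 0).length (blk c.1 1) (blk c.1 2), strip (blk c.1 3))
    else false) := by
    refine PolyFn.ite (PolyFn.decide_eq_nat hlen (PolyFn.const 3)) ?_ ?_
    · exact hV.comp (hb.pair ((poly_S1 Q hm ha hb (PolyFn.const [])).pair hu))
    refine PolyFn.ite (PolyFn.decide_eq_nat hlen (PolyFn.const 4)) ?_ (PolyFn.const false)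
    refine PolyFn.ite (PolyFn.decide_lt (PolyFn.length hy) (poly_eval Q hm)) ?_ ?_
    · refine PolyFn.and (PolyFn.decide_eq hu (poly_encP hdu1 hdu2)) (PolyFn.and ?_ ?_)
      · exact hV.comp (hb.pair ((poly_S1 Q hm ha hb (PolyFn.append hy
          (PolyFn.const [false]))).pair hdu1))
      · exact hV.comp (hb.pair ((poly_S1 Q hm ha hb (PolyFn.append hy
          (PolyFn.const [true]))).pair hdu2))
    · refine PolyFn.and (PolyFn.decide_eq hu (PolyFn.const [])) (PolyFn.not ?_)
      exact hV.comp (ha.pair ((poly_S0 hm ha hb).pair (poly_strip hy)))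
  exact hif

theorem RD_unique (hV : ∀ a x w w', V (a, x, w) = true → V (a, x, w') = true → w = w')
    (z u u' : List Bool) (h : RD V Q (z, u) = true) (h' : RD V Q (z, u') = true) : u = u' := by
  unfold RD at h h'
  by_cases h3 : (parse z).length = 3
  · simp only [h3, if_true] at h h'
    exact hV _ _ _ _ h h'
  simp only [h3, if_false] at h h'
  by_cases h4 : (parse z).length = 4
  · simp only [h4, if_true] at h h'
    by_cases hy : (blk z 3).length < Q.eval (blk z 0).length
    · simp only [hy, if_true, Bool.and_eq_true, decide_eq_true_eq] at h h'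
      have e1 := hV _ _ _ _ h.2.1 h'.2.1
      have e2 := hV _ _ _ _ h.2.2 h'.2.2
      rw [h.1, h'.1]
      congr 1
      exact Prod.ext e1 e2
    · simp only [hy, if_false, Bool.and_eq_true, decide_eq_true_eq] at h h'
      rw [h.1, h'.1]
  · simp only [h4, if_false] at h
    exact absurd h (by simp)

theorem RD_bound {q : Polynomial ℕ}
    (hV : ∀ a x w, V (a, x, w) = true → w.length ≤ q.eval (a.length + x.length)) :
    ∃ g : ℕ → ℕ, PB g ∧ ∀ z u, RD V Q (z, u) = true → u.length ≤ g (size z) := by
  have hz : PolyFn (fun z : List Bool => z) := PolyFn.id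
  have hm := PolyFn.length (poly_blk hz 0)
  have ha := poly_blk hz 1
  have hb := poly_blk hz 2
  have hy := poly_blk hz 3
  obtain ⟨gb, hgb, hb'⟩ := hb.size_le
  obtain ⟨g0, hg0, h0'⟩ := (poly_S1 Q hm ha hb (PolyFn.const [])).size_le
  obtain ⟨g1, hg1, h1'⟩ := (poly_S1 Q hm ha hb (PolyFn.append hy (PolyFn.const [false]))).size_le
  obtain ⟨g2, hg2, h2'⟩ := (poly_S1 Q hm ha hb (PolyFn.append hy (PolyFn.const [true]))).size_le
  have hqPB : PB fun n => q.eval n := ⟨fun _ _ h => poly_mono q h, q, fun n => le_rfl⟩
  refine ⟨fun n => q.eval (gb n + g0 n) + (6 * q.eval (gb n + g1 n) + 1 +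
    3 * q.eval (gb n + g2 n)), ?_, ?_⟩
  · exact (hqPB.comp (hgb.add hg0)).add ((((PB.const 6).mul (hqPB.comp (hgb.add hg1))).add
      (PB.const 1)).add ((PB.const 3).mul (hqPB.comp (hgb.add hg2))))
  intro z u h
  have hlb : (blk z 2).length ≤ gb (size z) := (length_le_size' _).trans (hb' z)
  unfold RD at h
  by_cases h3 : (parse z).length = 3
  · simp only [h3, if_true] at h
    refine (hV _ _ _ h).trans ?_
    refine (poly_mono q (Nat.add_le_add hlb ((length_le_size' _).trans (h0' z)))).trans ?_
    exact Nat.le_add_right _ _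
  simp only [h3, if_false] at h
  by_cases h4 : (parse z).length = 4
  · simp only [h4, if_true] at h
    by_cases hy : (blk z 3).length < Q.eval (blk z 0).length
    · simp only [hy, if_true, Bool.and_eq_true, decide_eq_true_eq] at h
      have e1 := (hV _ _ _ h.2.1).trans (poly_mono q (Nat.add_le_add hlb
        ((length_le_size' _).trans (h1' z))))
      have e2 := (hV _ _ _ h.2.2).trans (poly_mono q (Nat.add_le_add hlb
        ((length_le_size' _).trans (h2' z))))
      rw [h.1, encP_length]
      beta_reduce
      omega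
    · simp only [hy, if_false, Bool.and_eq_true, decide_eq_true_eq] at h
      rw [h.1]
      simp
  · simp only [h4, if_false] at h
    exact absurd h (by simp)

/-- The diagonal language. -/
noncomputable def DD (V : List Bool × List Bool × List Bool → Bool) (Q : Polynomial ℕ)
    (z : List Bool) : Bool :=
  letI := Classical.propDecidable (∃ u, RD V Q (z, u) = true)
  decide (∃ u, RD V Q (z, u) = true)

theorem DD_iff (z : List Bool) : DD V Q z = true ↔ ∃ u, RD V Q (z, u) = true := by
  unfold DD
  simp

theorem DD_mem_UP {q : Polynomial ℕ} (hV : PolyFn V)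
    (hu : ∀ a x w w', V (a, x, w) = true → V (a, x, w') = true → w = w')
    (hb : ∀ a x w, V (a, x, w) = true → w.length ≤ q.eval (a.length + x.length)) :
    DD V Q ∈ UP :=
  mem_UP (poly_RD hV) (RD_unique hu) DD_iff (RD_bound hb)

theorem DD_S0 (m : ℕ) (a b : List Bool) :
    DD V Q (S0 m a b) = true ↔ ∃ u, V (b, S1 Q m a b [], u) = true := by
  rw [DD_iff]
  have h : ∀ u, RD V Q (S0 m a b, u) = V (b, S1 Q m a b [], u) := by
    intro u
    unfold RD blk
    rw [parse_S0]
    simp
  simp only [h]

theorem DD_S1_lt (m : ℕ) (a b y : List Bool) (hy : y.length < Q.eval m) :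
    DD V Q (S1 Q m a b y) = true ↔ (∃ u, V (b, S1 Q m a b (y ++ [false]), u) = true) ∧
      ∃ u, V (b, S1 Q m a b (y ++ [true]), u) = true := by
  rw [DD_iff]
  have h : ∀ u, RD V Q (S1 Q m a b y, u) = (decide (u = encP (decP u)) &&
      (V (b, S1 Q m a b (y ++ [false]), (decP u).1) &&
        V (b, S1 Q m a b (y ++ [true]), (decP u).2))) := by
    intro u
    unfold RD blk
    simp only [parse_S1]
    simp [hy]
  simp only [h]
  constructor
  · rintro ⟨u, hu⟩
    simp only [Bool.and_eq_true] at hu
    exact ⟨⟨_, hu.2.1⟩, ⟨_, hu.2.2⟩⟩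
  · rintro ⟨⟨u0, h0⟩, ⟨u1, h1⟩⟩
    refine ⟨encP (u0, u1), ?_⟩
    rw [decP_encP]
    simp [h0, h1]

theorem DD_S1_eq (m : ℕ) (a b y : List Bool) (hy : y.length = Q.eval m) :
    DD V Q (S1 Q m a b y) = true ↔ V (a, S0 m a b, strip y) = false := by
  rw [DD_iff]
  have h : ∀ u, RD V Q (S1 Q m a b y, u) = (decide (u = []) &&
      !V (a, S0 m a b, strip y)) := by
    intro u
    unfold RD blk
    simp only [parse_S1]
    simp [hy]
  simp only [h]
  simp

end diag

/-- The diagonal argument at one parameter. -/
theorem diag_step {L : List Bool → Bool} {e : List Bool × List Bool → List Bool}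
    {V : List Bool × List Bool × List Bool → Bool} {q Q : Polynomial ℕ}
    (hL : ∀ a x, L (e (a, x)) = true ↔ ∃ w, V (a, x, w) = true)
    (hb : ∀ a x w, V (a, x, w) = true → w.length ≤ q.eval (a.length + x.length))
    (hQ : ∀ m, Q.eval m = q.eval (7 * m + 4) + 1)
    (α : ℕ → List Bool) (m : ℕ) (h0 : (α (6 * m + 4)).length ≤ m)
    (h1 : (α (6 * m + 6 + 2 * Q.eval m)).length ≤ m)
    (hD : ∀ x, DD V Q x = L (e (α x.length, x))) : False := by
  set a := α (6 * m + 4) with ha
  set b := α (6 * m + 6 + 2 * Q.eval m) with hb'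
  have hS0 : (S0 m a b).length = 6 * m + 4 := S0_length h0 h1
  have hD0 : DD V Q (S0 m a b) = L (e (a, S0 m a b)) := by
    rw [hD, hS0]
  have hD1 : ∀ y : List Bool, y.length ≤ Q.eval m →
      DD V Q (S1 Q m a b y) = L (e (b, S1 Q m a b y)) := by
    intro y hy
    rw [hD, S1_length h0 h1 hy]
  -- the value at a long input
  have key : ∀ (k : ℕ) (y : List Bool), y.length + k = Q.eval m →
      (DD V Q (S1 Q m a b y) = true ↔ ∀ t : List Bool, t.length = k →
        V (a, S0 m a b, strip (y ++ t)) = false) := by
    intro k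
    induction k with
    | zero =>
      intro y hy
      rw [DD_S1_eq m a b y (by omega)]
      constructor
      · intro h t ht
        rw [List.length_eq_zero_iff.1 ht, List.append_nil]
        exact h
      · intro h
        have := h [] rfl
        rwa [List.append_nil] at this
    | succ k ih =>
      intro y hy
      rw [DD_S1_lt m a b y (by omega), ← hL, ← hL, ← hD1 _ (by simp; omega),
        ← hD1 _ (by simp; omega), ih (y ++ [false]) (by simp; omega),
        ih (y ++ [true]) (by simp; omega)]
      constructor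
      · rintro ⟨hf, ht⟩ t htl
        match t, htl with
        | c :: t, htl =>
          have htl' : t.length = k := by simpa using htl
          cases c with
          | false => simpa using hf t htl'
          | true => simpa using ht t htl'
      · intro h
        refine ⟨fun t ht => ?_, fun t ht => ?_⟩
        · have := h (false :: t) (by simp [ht])
          simpa using this
        · have := h (true :: t) (by simp [ht])
          simpa using this
  have hroot := key (Q.eval m) [] (by simp)
  have hD0' : DD V Q (S0 m a b) = true ↔ DD V Q (S1 Q m a b []) = true := by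
    rw [DD_S0, ← hL, ← hD1 [] (by simp)]
  have hneg : DD V Q (S1 Q m a b []) = true ↔ ¬ DD V Q (S0 m a b) = true := by
    rw [hroot, hD0, hL]
    constructor
    · rintro h ⟨w, hw⟩
      have hwl : w.length < Q.eval m := by
        have := hb _ _ _ hw
        rw [hQ]
        refine Nat.lt_succ_of_le (this.trans (poly_mono q ?_))
        rw [hS0]
        omega
      obtain ⟨y, hy, hyw⟩ := exists_path hwl
      have := h y hy
      rw [List.nil_append, hyw, hw] at this
      exact absurd this (by simp)
    · intro h t _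
      by_contra hc
      apply h
      exact ⟨_, by simpa using hc⟩
  tauto

end Pool.Agent.Lib.MP_d5150c_lc
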