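import Pool.Agent.Lib.MP_d5150c_lc.Diag
import Pool.Agent.Lib.MP_d5150c_lc.Defs

/-!
# MP_d5150c_lc: no complete languages for `UP` under reductions of a fixed polynomial degree with
short advice
-/

namespace Pool.Agent.Lib.MP_d5150c_lc

open Filter Pool.Agent.PolyTime N487b59b3 N68a2faeb N793a5b8e

theorem eval_lt_pow (P : Polynomial ℕ) : ∃ c : ℕ, ∀ m, P.eval 1 ≤ m → P.eval m < (m + 1) ^ c := by
  refine ⟨P.natDegree + 1, ?_⟩
  intro m hm
  have h1 : P.eval m ≤ P.eval 1 * (m + 1) ^ P.natDegree := by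
    rw [Polynomial.eval_eq_sum_range, Polynomial.eval_eq_sum_range, Finset.sum_mul]
    refine Finset.sum_le_sum ?_
    intro i hi
    rw [one_pow, mul_one]
    refine Nat.mul_le_mul_left _ ?_
    have hi' : i ≤ P.natDegree := Nat.lt_succ_iff.1 (Finset.mem_range.1 hi)
    calc m ^ i ≤ (m + 1) ^ i := Nat.pow_le_pow_left (by omega) i
      _ ≤ (m + 1) ^ P.natDegree := Nat.pow_le_pow_right (by omega) hi'
  have h2 : P.eval 1 * (m + 1) ^ P.natDegree ≤ m * (m + 1) ^ P.natDegree :=
    Nat.mul_le_mul_right _ hm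
  have h3 : 0 < (m + 1) ^ P.natDegree := Nat.pow_pos (by omega)
  rw [pow_succ]
  nlinarith

/-- No language in `UP` is hard for `UP` under the reductions `x ↦ e (α |x|, x)` with short `α`. -/
theorem exists_hard {L : List Bool → Bool} (hL : L ∈ UP)
    {e : List Bool × List Bool → List Bool} (he : PolyFn e) :
    ∃ D ∈ UP, ∃ c : ℕ, ∀ α : ℕ → List Bool, (∀ᶠ n in atTop, (α n).length ^ c ≤ n) →
      ¬ ∀ x, D x = L (e (α x.length, x)) := by
  obtain ⟨V, q, hV, hLV, hu, hb⟩ := exists_V hL he
  set Q : Polynomial ℕ := q.comp (7 * Polynomial.X + 4) + 1 with hQ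
  have hQe : ∀ m, Q.eval m = q.eval (7 * m + 4) + 1 := by
    intro m
    rw [hQ, Polynomial.eval_add, Polynomial.eval_comp]
    simp
  refine ⟨DD V Q, DD_mem_UP hV hu hb, ?_⟩
  obtain ⟨c, hc⟩ := eval_lt_pow (6 * Polynomial.X + 6 + 2 * Q)
  have hPe : ∀ m, (6 * Polynomial.X + 6 + 2 * Q : Polynomial ℕ).eval m =
      6 * m + 6 + 2 * Q.eval m := by
    intro m
    simp
  refine ⟨c, ?_⟩
  intro α hα hD
  obtain ⟨N, hN⟩ := eventually_atTop.1 hα
  set m := max N ((6 * Polynomial.X + 6 + 2 * Q : Polynomial ℕ).eval 1) with hm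
  have hm1 : N ≤ m := le_max_left _ _
  have hm2 := hc m (le_max_right _ _)
  rw [hPe] at hm2
  have key : ∀ n, N ≤ n → n ≤ 6 * m + 6 + 2 * Q.eval m → (α n).length ≤ m := by
    intro n hn hn'
    by_contra hcon
    have h1 : (m + 1) ^ c ≤ (α n).length ^ c := Nat.pow_le_pow_left (by omega) c
    have h2 := hN n hn
    omega
  exact diag_step hLV hb hQe α m (key _ (by omega) (by omega)) (key _ (by omega) (by omega)) hD

theorem poly_U' {γ : Type} [Enc γ] {a : γ → Prog} {b : γ → List Bool} {n : γ → ℕ}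
    (ha : PolyFn a) (hb : PolyFn b) (hn : PolyFn n) : PolyFn (fun c => U (a c) (b c) (n c)) :=
  poly_U.comp (ha.pair (hb.pair hn))

/-- machine code, time constant and advice -/
abbrev Adv : Type := Prog × ℕ × List Bool

/-- the data contained in an advice string -/
def getAdv (a : List Bool) : Adv := unbits Adv a

theorem poly_getAdv : PolyFn getAdv := poly_unbits

/-- The universal reduction. -/
def uni (k : ℕ) (c : List Bool × List Bool) : List Bool :=
  decL (U (getAdv c.1).1 (encP ((getAdv c.1).2.2, c.2))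
    ((getAdv c.1).2.1 * ((encP ((getAdv c.1).2.2, c.2)).length ^ k + 1)))

theorem poly_uni (k : ℕ) : PolyFn (uni k) := by
  have h0 : PolyFn (fun c : List Bool × List Bool => getAdv c.1) := poly_getAdv.comp PolyFn.fst
  have h1 : PolyFn (fun c : List Bool × List Bool => (getAdv c.1).1) := PolyFn.fst.comp h0
  have h2 : PolyFn (fun c : List Bool × List Bool => (getAdv c.1).2.1) :=
    PolyFn.fst.comp (PolyFn.snd.comp h0)
  have h3 : PolyFn (fun c : List Bool × List Bool => (getAdv c.1).2.2) :=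
    PolyFn.snd.comp (PolyFn.snd.comp h0)
  have h4 : PolyFn (fun c : List Bool × List Bool => encP ((getAdv c.1).2.2, c.2)) :=
    poly_encP h3 PolyFn.snd
  have h5 : PolyFn (fun c : List Bool × List Bool =>
      (getAdv c.1).2.1 * ((encP ((getAdv c.1).2.2, c.2)).length ^ k + 1)) :=
    PolyFn.mul h2 (PolyFn.add (PolyFn.pow (PolyFn.length h4) k) (PolyFn.const 1))
  exact poly_decL (poly_U' h1 h4 h5)

theorem uni_spec {k : ℕ} {g : List Bool × List Bool → List Bool} (hg : ComputableInDegree k g) :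
    ∃ (pr : Prog) (B : ℕ), ∀ a x : List Bool, uni k (bits (pr, B, a), x) = g (a, x) := by
  obtain ⟨h, C, hC⟩ := hg
  obtain ⟨pr, B, hU⟩ := U_correct h
  refine ⟨pr, C * B, ?_⟩
  intro a x
  unfold uni getAdv
  simp only [unbits_bits]
  have h1 := hU (a, x) (C * B * ((encP (a, x)).length ^ k + 1)) (by
    rw [bitEncode_pair]
    refine (Nat.mul_le_mul_right B (hC _)).trans (le_of_eq ?_)
    ring)
  rw [bitEncode_pair, bitEncode_list] at h1
  rw [h1, decL_encL]

theorem main (k : ℕ) (L : DecisionProblem) (hL : L ∈ UP) :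
    ∃ D ∈ UP, ∃ c : ℕ, ¬ AdviceReducible k c D L := by
  obtain ⟨D, hD, c, hc⟩ := exists_hard hL (poly_uni k)
  refine ⟨D, hD, 2 * c, ?_⟩
  rintro ⟨g, a, hg, ha, hred⟩
  obtain ⟨pr, B, hu⟩ := uni_spec hg
  refine hc (fun n => bits (pr, B, a n)) ?_ ?_
  · set K := size pr + size B + 3 with hK
    have hlen : ∀ n, (bits (pr, B, a n)).length ≤ K + 4 * (a n).length := by
      intro n
      have e1 : size (pr, B, a n) = size pr + size (B, a n) + 1 := size_prod _ _
      have e2 : size (B, a n) = size B + size (a n) + 1 := size_prod _ _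
      rw [bits_length, e1, e2]
      have := size_bits_le (a n)
      omega
    filter_upwards [ha, eventually_ge_atTop ((K + 4) ^ (2 * c)), eventually_ge_atTop 1]
      with n hn1 hn2 hn3
    have h3 : (bits (pr, B, a n)).length ≤ (K + 4) * max (a n).length 1 := by
      refine (hlen n).trans ?_
      have h4 : 1 ≤ max (a n).length 1 := le_max_right _ _
      have h5 : (a n).length ≤ max (a n).length 1 := le_max_left _ _
      nlinarith
    have h4 : (max (a n).length 1) ^ (2 * c) ≤ n := by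
      rcases le_total (a n).length 1 with h | h
      · rw [max_eq_right h, one_pow]; exact hn3
      · rw [max_eq_left h]; exact hn1
    have h5 : ((bits (pr, B, a n)).length ^ c) ^ 2 ≤ n ^ 2 := by
      calc ((bits (pr, B, a n)).length ^ c) ^ 2 = (bits (pr, B, a n)).length ^ (2 * c) := by
            rw [← pow_mul, mul_comm]
        _ ≤ ((K + 4) * max (a n).length 1) ^ (2 * c) := Nat.pow_le_pow_left h3 _
        _ = (K + 4) ^ (2 * c) * (max (a n).length 1) ^ (2 * c) := mul_pow _ _ _
        _ ≤ n * n := Nat.mul_le_mul hn2 h4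
        _ = n ^ 2 := (sq n).symm
    exact (Nat.pow_le_pow_iff_left (by norm_num)).1 h5
  · intro x
    rw [hred x, hu]

end Pool.Agent.Lib.MP_d5150c_lc
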