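import Pool.Agent.Lib.MP_d5150c_lc.Diag
import Pool.Agent.Lib.PolyTime.BridgeList
import Pool.Agent.Lib.MP_d5150c_lc.DefsOneBit

/-!
# MP_d5150c_lc: a hard language for `UP` in `UP` with one bit of advice
-/

namespace Pool.Agent.Lib.MP_d5150c_lc

open Pool.Agent.PolyTime N487b59b3 N68a2faeb N793a5b8e

/-- polynomial-time functions on bit strings -/
theorem isPolyTime_fun {f : List Bool → List Bool} (h : PolyFn f) : IsPolyTime f := by
  have h1 : PolyFn (fun l : List Bool => encL (f (decL l))) := poly_encL (h.comp (poly_decL PolyFn.id))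
  refine PolyFn.toTM2List h1 (bitEncode : List Bool → List Bool)
    (bitEncode : List Bool → List Bool) f ?_
  intro x
  rw [bitEncode_list, bitEncode_list, decL_encL]

theorem poly_pair {γ : Type} [Enc γ] {a b : γ → ℕ} (ha : PolyFn a) (hb : PolyFn b) :
    PolyFn (fun c => Nat.pair (a c) (b c)) := by
  unfold Nat.pair
  exact PolyFn.ite (PolyFn.decide_lt ha hb) (PolyFn.add (PolyFn.mul hb hb) ha)
    (PolyFn.add (PolyFn.add (PolyFn.mul ha ha) ha) hb)

/-- the length of the instances with given parameters -/
def Len (i n s t : ℕ) : ℕ := 10 * Nat.pair i (Nat.pair n (Nat.pair s t)) + 8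

theorem Len_inj {i n s t i' n' s' t' : ℕ} (h : Len i n s t = Len i' n' s' t') :
    i = i' ∧ n = n' ∧ s = s' ∧ t = t' := by
  unfold Len at h
  have h1 : Nat.pair i (Nat.pair n (Nat.pair s t)) = Nat.pair i' (Nat.pair n' (Nat.pair s' t')) := by
    omega
  rw [Nat.pair_eq_pair, Nat.pair_eq_pair, Nat.pair_eq_pair] at h1
  exact ⟨h1.1, h1.2.1, h1.2.2.1, h1.2.2.2⟩

/-- five blocks -/
def w5 (i : ℕ) (P x : List Bool) (s t : ℕ) : List (Option Bool) :=
  (List.replicate i true).map some ++ none :: (P.map some ++ none :: (x.map some ++
    none :: ((List.replicate s true).map some ++ none :: (List.replicate t true).map some)))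

theorem blocks_w5 (i : ℕ) (P x : List Bool) (s t : ℕ) :
    blocks (w5 i P x s t) =
      [List.replicate i true, P, x, List.replicate s true, List.replicate t true] := by
  unfold w5
  rw [blocks_cons, blocks_cons, blocks_cons, blocks_cons, blocks_some]

theorem w5_length (i : ℕ) (P x : List Bool) (s t : ℕ) :
    (w5 i P x s t).length = i + P.length + x.length + s + t + 4 := by
  simp [w5]; omega

/-- the index of a bit string -/
def bidx (P : List Bool) : ℕ := binVal (P ++ [true])

theorem length_lt_bidx (P : List Bool) : P.length < bidx P := by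
  induction P with
  | nil => decide
  | cons b P ih =>
    have h : bidx (b :: P) = 2 * bidx P + b.toNat := rfl
    rw [h, List.length_cons]
    omega

theorem bidx_inj : ∀ P P' : List Bool, bidx P = bidx P' → P = P'
  | [], [], _ => rfl
  | [], b :: P', h => by
    have h1 : bidx ([] : List Bool) = 1 := rfl
    have h2 : bidx (b :: P') = 2 * bidx P' + b.toNat := rfl
    have h3 := length_lt_bidx P'
    rw [h1, h2] at h
    omega
  | b :: P, [], h => by
    have h1 : bidx ([] : List Bool) = 1 := rfl
    have h2 : bidx (b :: P) = 2 * bidx P + b.toNat := rfl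
    have h3 := length_lt_bidx P
    rw [h1, h2] at h
    omega
  | b :: P, b' :: P', h => by
    have h1 : bidx (b :: P) = 2 * bidx P + b.toNat := rfl
    have h2 : bidx (b' :: P') = 2 * bidx P' + b'.toNat := rfl
    rw [h1, h2] at h
    have hb : b.toNat ≤ 1 := Bool.toNat_le b
    have hb' : b'.toNat ≤ 1 := Bool.toNat_le b'
    have h3 : bidx P = bidx P' := by omega
    have h4 : b.toNat = b'.toNat := by omega
    have h5 : b = b' := by
      cases b <;> cases b' <;> simp_all
    rw [h5, bidx_inj P P' h3]

/-- instances -/
def inst (i : ℕ) (P x : List Bool) (s t : ℕ) : List Bool :=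
  pad (Len i x.length s t) (encO (w5 i P x s t))

theorem inst_length {i : ℕ} {P x : List Bool} {s t : ℕ} (h : P.length ≤ i) :
    (inst i P x s t).length = Len i x.length s t := by
  apply pad_length
  rw [encO_length, w5_length]
  unfold Len
  have h1 := Nat.left_le_pair i (Nat.pair x.length (Nat.pair s t))
  have h2 := Nat.right_le_pair i (Nat.pair x.length (Nat.pair s t))
  have h3 := Nat.left_le_pair x.length (Nat.pair s t)
  have h4 := Nat.right_le_pair x.length (Nat.pair s t)
  have h5 := Nat.left_le_pair s t
  have h6 := Nat.right_le_pair s t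
  omega

theorem parse_inst (i : ℕ) (P x : List Bool) (s t : ℕ) : parse (inst i P x s t) =
    [List.replicate i true, P, x, List.replicate s true, List.replicate t true] := by
  unfold inst
  rw [parse_pad, blocks_w5]

/-- the checks on the instance -/
def chk (z : List Bool) : Bool :=
  decide (z.length = Len (blk z 0).length (blk z 2).length (blk z 3).length (blk z 4).length) &&
    decide (capVal (z.length + 1) (blk z 1 ++ [true]) = (blk z 0).length)

/-- the machine with a given code -/
def getProg (P : List Bool) : Prog := unbits Prog P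

theorem poly_getProg : PolyFn getProg := poly_unbits

theorem poly_U'' {γ : Type} [Enc γ] {a : γ → Prog} {b : γ → List Bool} {n : γ → ℕ}
    (ha : PolyFn a) (hb : PolyFn b) (hn : PolyFn n) : PolyFn (fun c => U (a c) (b c) (n c)) :=
  poly_U.comp (ha.pair (hb.pair hn))

/-- simulation -/
def run1 (z w : List Bool) : Bool :=
  (U (getProg (blk z 1)) (encP (blk z 2, w)) (blk z 4).length).headD false

/-- the relation without advice -/
def R0 (z w : List Bool) : Bool :=
  chk z && (decide (w.length ≤ (blk z 3).length) && run1 z w)

theorem poly_Len {γ : Type} [Enc γ] {a b c d : γ → ℕ} (ha : PolyFn a) (hb : PolyFn b)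
    (hc : PolyFn c) (hd : PolyFn d) : PolyFn (fun x => Len (a x) (b x) (c x) (d x)) :=
  PolyFn.add (PolyFn.mul (PolyFn.const 10) (poly_pair ha (poly_pair hb (poly_pair hc hd))))
    (PolyFn.const 8)

theorem poly_chk {γ : Type} [Enc γ] {z : γ → List Bool} (hz : PolyFn z) :
    PolyFn (fun c => chk (z c)) := by
  have h0 := PolyFn.length (poly_blk hz 0)
  have h2 := PolyFn.length (poly_blk hz 2)
  have h3 := PolyFn.length (poly_blk hz 3)
  have h4 := PolyFn.length (poly_blk hz 4)
  have hl := PolyFn.length hz
  refine PolyFn.and (PolyFn.decide_eq_nat hl (poly_Len h0 h2 h3 h4)) (PolyFn.decide_eq_nat ?_ h0)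
  exact PolyFn.capVal (PolyFn.succ hl) (PolyFn.append (poly_blk hz 1) (PolyFn.const [true]))

theorem poly_run1 {γ : Type} [Enc γ] {z w : γ → List Bool} (hz : PolyFn z) (hw : PolyFn w) :
    PolyFn (fun c => run1 (z c) (w c)) := by
  have h1 : PolyFn (fun c => getProg (blk (z c) 1)) := poly_getProg.comp (poly_blk hz 1)
  have h2 : PolyFn (fun c => encP (blk (z c) 2, w c)) := poly_encP (poly_blk hz 2) hw
  have h4 : PolyFn (fun c => (blk (z c) 4).length) := PolyFn.length (poly_blk hz 4)
  have h5 : PolyFn (fun c => U (getProg (blk (z c) 1)) (encP (blk (z c) 2, w c))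
      (blk (z c) 4).length) := poly_U'' h1 h2 h4
  exact PolyFn.headD h5 (PolyFn.const false)

theorem poly_R0 {γ : Type} [Enc γ] {z w : γ → List Bool} (hz : PolyFn z) (hw : PolyFn w) :
    PolyFn (fun c => R0 (z c) (w c)) :=
  PolyFn.and (poly_chk hz) (PolyFn.and (PolyFn.decide_le (PolyFn.length hw)
    (PolyFn.length (poly_blk hz 3))) (poly_run1 hz hw))

/-- The advice bit: uniqueness holds for all strings of this length. -/
noncomputable def beta (l : ℕ) : Bool :=
  letI := Classical.propDecidable (∀ z : List Bool, z.length = l → ∀ w w' : List Bool,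
    R0 z w = true → R0 z w' = true → w = w')
  decide (∀ z : List Bool, z.length = l → ∀ w w' : List Bool,
    R0 z w = true → R0 z w' = true → w = w')

theorem beta_iff (l : ℕ) : beta l = true ↔ ∀ z : List Bool, z.length = l → ∀ w w' : List Bool,
    R0 z w = true → R0 z w' = true → w = w' := by
  unfold beta
  simp

/-- the relation with the advice bit as first bit of the input -/
def R1 (c : List Bool × List Bool) : Bool := c.1.headD false && R0 c.1.tail c.2

theorem poly_R1 : PolyFn R1 :=
  PolyFn.and (PolyFn.headD PolyFn.fst (PolyFn.const false)) (poly_R0 (PolyFn.tail PolyFn.fst)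
    PolyFn.snd)

/-- the hard language -/
noncomputable def KK (z : List Bool) : Bool :=
  letI := Classical.propDecidable (∃ w, R1 (beta z.length :: z, w) = true)
  decide (∃ w, R1 (beta z.length :: z, w) = true)

theorem KK_iff (z : List Bool) : KK z = true ↔ beta z.length = true ∧ ∃ w, R0 z w = true := by
  have h0 : KK z = true ↔ ∃ w, R1 (beta z.length :: z, w) = true := by
    unfold KK
    exact @decide_eq_true_iff _ (Classical.propDecidable _)
  rw [h0]
  simp only [R1, List.headD_cons, List.tail_cons, Bool.and_eq_true]
  constructor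
  · rintro ⟨w, h1, h2⟩
    exact ⟨h1, w, h2⟩
  · rintro ⟨h1, w, h2⟩
    exact ⟨w, h1, h2⟩

theorem R0_bound {z w : List Bool} (h : R0 z w = true) : w.length ≤ z.length := by
  simp only [R0, chk, Bool.and_eq_true, decide_eq_true_eq] at h
  obtain ⟨⟨h1, _⟩, h2, _⟩ := h
  refine h2.trans ?_
  rw [h1]
  unfold Len
  have h3 := Nat.right_le_pair (blk z 0).length (Nat.pair (blk z 2).length
    (Nat.pair (blk z 3).length (blk z 4).length))
  have h4 := Nat.right_le_pair (blk z 2).length (Nat.pair (blk z 3).length (blk z 4).length)
  have h5 := Nat.left_le_pair (blk z 3).length (blk z 4).length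
  omega

theorem KK_mem : KK ∈ UPOneBit := by
  refine ⟨beta, Polynomial.X, R1, isPolyTime_of_polyFn poly_R1, ?_, ?_⟩
  · intro z
    rw [show (KK z : Prop) = (KK z = true) from rfl, KK_iff]
    constructor
    · rintro ⟨hb, w, hw⟩
      refine ⟨w, ?_, ?_⟩
      · rw [Polynomial.eval_X]; exact R0_bound hw
      · show R1 (beta z.length :: z, w) = true
        simp [R1, hb, hw]
    · rintro ⟨w, _, hw⟩
      have hw' : R1 (beta z.length :: z, w) = true := hw
      simp only [R1, List.headD_cons, List.tail_cons, Bool.and_eq_true] at hw'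
      exact ⟨hw'.1, w, hw'.2⟩
  · intro z w w' _ _ h h'
    have hw : R1 (beta z.length :: z, w) = true := h
    have hw' : R1 (beta z.length :: z, w') = true := h'
    simp only [R1, List.headD_cons, List.tail_cons, Bool.and_eq_true] at hw hw'
    exact (beta_iff _).1 hw.1 z rfl w w' hw.2 hw'.2

/-- every language of `UP` has a machine code and bounds for which the simulation is correct -/
theorem exists_sim {A : List Bool → Bool} (hA : A ∈ UP) :
    ∃ (pr : Prog) (s t : Polynomial ℕ) (R : List Bool × List Bool → Bool),
      (∀ x, A x = true ↔ ∃ w, w.length ≤ s.eval x.length ∧ R (x, w) = true) ∧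
      (∀ x w w', R (x, w) = true → R (x, w') = true → w = w') ∧
      (∀ x w, w.length ≤ s.eval x.length →
        (U pr (encP (x, w)) (t.eval x.length)).headD false = R (x, w)) := by
  obtain ⟨V, q, hV, hAV, hu, hb⟩ := exists_V hA (e := fun c => c.2) PolyFn.snd
  have hR : PolyFn (fun c : List Bool × List Bool => V ([], c.1, c.2)) :=
    hV.comp ((PolyFn.const []).pair (PolyFn.fst.pair PolyFn.snd))
  obtain ⟨h⟩ := isPolyTime_of_polyFn hR
  obtain ⟨pr, B, hU⟩ := U_correct h.toTM2ComputableInTime
  refine ⟨pr, q, h.time.comp (6 * Polynomial.X + 1 + 3 * q) * (Polynomial.C B),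
    fun c => V ([], c.1, c.2), ?_, ?_, ?_⟩
  · intro x
    have := hAV [] x
    rw [this]
    constructor
    · rintro ⟨w, hw⟩
      refine ⟨w, ?_, hw⟩
      have := hb _ _ _ hw
      simpa using this
    · rintro ⟨w, _, hw⟩
      exact ⟨w, hw⟩
  · intro x w w' hw hw'
    exact hu _ _ _ _ hw hw'
  · intro x w hw
    have h1 := hU (x, w) ((h.time.comp (6 * Polynomial.X + 1 + 3 * q) *
      (Polynomial.C B)).eval x.length) (by
        rw [Polynomial.eval_mul, Polynomial.eval_C, Polynomial.eval_comp]
        refine Nat.mul_le_mul_right B (poly_mono h.time ?_)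
        have e : (bitEncode (x, w) : List Bool).length = 6 * x.length + 1 + 3 * w.length := by
          rw [bitEncode_pair, encP_length]
        refine le_trans (le_of_eq e) ?_
        simp
        omega)
    have h2 : U pr (encP (x, w)) ((h.time.comp (6 * Polynomial.X + 1 + 3 * q) *
        (Polynomial.C B)).eval x.length) = [V ([], x, w)] := by
      rw [← bitEncode_pair]
      exact h1
    rw [h2]
    rfl

theorem blk_inst (i : ℕ) (P x : List Bool) (s t : ℕ) :
    blk (inst i P x s t) 0 = List.replicate i true ∧ blk (inst i P x s t) 1 = P ∧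
    blk (inst i P x s t) 2 = x ∧ blk (inst i P x s t) 3 = List.replicate s true ∧
    blk (inst i P x s t) 4 = List.replicate t true := by
  unfold blk
  rw [parse_inst]
  exact ⟨rfl, rfl, rfl, rfl, rfl⟩

theorem KK_hard {A : List Bool → Bool} (hA : A ∈ UP) : ManyOneReducible A KK := by
  obtain ⟨pr, s, t, R, hAR, hu, hsim⟩ := exists_sim hA
  refine ⟨fun x => inst (bidx (bits pr)) (bits pr) x (s.eval x.length) (t.eval x.length), ?_, ?_⟩
  · apply isPolyTime_fun
    have hx : PolyFn (fun x : List Bool => x) := PolyFn.id
    have hl := PolyFn.length hx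
    have hsv := poly_eval s hl
    have htv := poly_eval t hl
    have hm : ∀ {y : List Bool → List Bool}, PolyFn y → PolyFn (fun c => (y c).map some) :=
      fun {y} hy => PolyFn.map (f := fun (_ : List Bool) (b : Bool) => some b)
        (PolyFn.some PolyFn.snd) hy
    have hn : PolyFn (fun _ : List Bool => (none : Option Bool)) := PolyFn.const none
    refine poly_pad (poly_Len (PolyFn.const _) hl hsv htv) (poly_encO ?_)
    exact PolyFn.append (PolyFn.const _) (PolyFn.cons hn (PolyFn.append (PolyFn.const _)
      (PolyFn.cons hn (PolyFn.append (hm hx) (PolyFn.cons hn (PolyFn.append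
        (hm (PolyFn.replicate hsv (PolyFn.const true))) (PolyFn.cons hn
          (hm (PolyFn.replicate htv (PolyFn.const true))))))))))
  · intro x
    set z := inst (bidx (bits pr)) (bits pr) x (s.eval x.length) (t.eval x.length) with hz
    have hlen : z.length = Len (bidx (bits pr)) x.length (s.eval x.length) (t.eval x.length) :=
      inst_length (length_lt_bidx _).le
    -- the relation at a string of this length
    have hR0 : ∀ z' : List Bool, z'.length = z.length → ∀ w, R0 z' w = true →
        (blk z' 2).length = x.length ∧ R (blk z' 2, w) = true := by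
      intro z' hz' w hw
      simp only [R0, chk, Bool.and_eq_true, decide_eq_true_eq] at hw
      obtain ⟨⟨h1, h2⟩, h3, h4⟩ := hw
      have h5 := h1
      rw [hz', hlen] at h5
      obtain ⟨e0, e2, e3, e4⟩ := Len_inj h5
      rw [capVal_eq, ← e0] at h2
      have h6 : binVal (blk z' 1 ++ [true]) = bidx (bits pr) := by
        have h7 : bidx (bits pr) ≤ z'.length := by
          rw [hz', hlen]
          unfold Len
          have := Nat.left_le_pair (bidx (bits pr)) (Nat.pair x.length
            (Nat.pair (s.eval x.length) (t.eval x.length)))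
          omega
        omega
      have h8 : blk z' 1 = bits pr := bidx_inj _ _ h6
      refine ⟨e2.symm, ?_⟩
      unfold run1 getProg at h4
      rw [h8, unbits_bits, ← e4, e2] at h4
      rw [← hsim]
      · exact h4
      · rw [← e2, e3]
        exact h3
    have hbeta : beta z.length = true := by
      rw [beta_iff]
      intro z' hz' w w' hw hw'
      exact hu _ _ _ (hR0 z' hz' w hw).2 (hR0 z' hz' w' hw').2
    have hblk := blk_inst (bidx (bits pr)) (bits pr) x (s.eval x.length) (t.eval x.length)
    rw [← hz] at hblk
    obtain ⟨b0, b1, b2, b3, b4⟩ := hblk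
    have key : KK z = true ↔ A x = true := by
      rw [KK_iff, hAR]
      constructor
      · rintro ⟨_, w, hw⟩
        refine ⟨w, ?_, ?_⟩
        · simp only [R0, Bool.and_eq_true, decide_eq_true_eq] at hw
          have := hw.2.1
          rw [b3, List.length_replicate] at this
          exact this
        · have := (hR0 z rfl w hw).2
          rwa [b2] at this
      · rintro ⟨w, hw, hRw⟩
        refine ⟨hbeta, w, ?_⟩
        simp only [R0, chk, run1, getProg, Bool.and_eq_true, decide_eq_true_eq]
        rw [b0, b1, b2, b3, b4]
        simp only [List.length_replicate]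
        refine ⟨⟨hlen, ?_⟩, hw, ?_⟩
        · rw [capVal_eq]
          have h7 : bidx (bits pr) ≤ z.length := by
            rw [hlen]
            unfold Len
            have := Nat.left_le_pair (bidx (bits pr)) (Nat.pair x.length
              (Nat.pair (s.eval x.length) (t.eval x.length)))
            omega
          show Min.min (bidx (bits pr)) (z.length + 1) = bidx (bits pr)
          omega
        · rw [unbits_bits, hsim x w hw]
          exact hRw
    cases hA' : A x <;> cases hK : KK z <;> simp_all

end Pool.Agent.Lib.MP_d5150c_lc
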