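import Pool.Agent.Lib.MP_d5150c_lc.Bridge

/-!
# MP_d5150c_lc: padded codes of tuples of bit strings
-/

namespace Pool.Agent.Lib.MP_d5150c_lc

open Pool.Agent.PolyTime

/-- bits of a letter -/
def optBits : Option Bool → List Bool
  | some b => [true, b]
  | none => [false, true]

/-- bits of a word with separators -/
def encO (l : List (Option Bool)) : List Bool := l.flatMap optBits

/-- pad to a given length -/
def pad (N : ℕ) (l : List Bool) : List Bool := l ++ List.replicate (N - l.length) false

theorem encO_length (l : List (Option Bool)) : (encO l).length = 2 * l.length := by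
  induction l with
  | nil => rfl
  | cons o l ih =>
    have : encO (o :: l) = optBits o ++ encO l := rfl
    rw [this, List.length_append, ih]
    cases o <;> simp [optBits] <;> omega

theorem pad_length {N : ℕ} {l : List Bool} (h : l.length ≤ N) : (pad N l).length = N := by
  unfold pad
  rw [List.length_append, List.length_replicate]
  omega

/-- one step of the parser -/
def ostep (s : ℕ × List (Option Bool)) (b : Bool) : ℕ × List (Option Bool) :=
  if s.1 = 0 then (if b = true then (1, s.2) else (2, s.2))
  else if s.1 = 1 then (0, some b :: s.2)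
  else if b = true then (0, none :: s.2) else (0, s.2)

/-- parse a padded word -/
def parse (l : List Bool) : List (List Bool) := blocks (l.foldl ostep (0, [])).2.reverse

theorem foldl_ostep (l : List (Option Bool)) : ∀ acc : List (Option Bool),
    (encO l).foldl ostep (0, acc) = (0, l.reverse ++ acc) := by
  induction l with
  | nil => intro acc; rfl
  | cons o l ih =>
    intro acc
    have : encO (o :: l) = optBits o ++ encO l := rfl
    rw [this, List.foldl_append]
    cases o with
    | none =>
      show (encO l).foldl ostep (0, none :: acc) = _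
      rw [ih]; simp
    | some b =>
      show (encO l).foldl ostep (0, some b :: acc) = _
      rw [ih]; simp

theorem foldl_ostep_false (n : ℕ) : ∀ (acc : List (Option Bool)),
    ((List.replicate n false).foldl ostep (0, acc)).2 = acc ∧
    ((List.replicate n false).foldl ostep (2, acc)).2 = acc := by
  induction n with
  | zero => intro acc; exact ⟨rfl, rfl⟩
  | succ n ih =>
    intro acc
    refine ⟨?_, ?_⟩
    · show ((List.replicate n false).foldl ostep (2, acc)).2 = acc
      exact (ih acc).2
    · show ((List.replicate n false).foldl ostep (0, acc)).2 = acc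
      exact (ih acc).1

theorem parse_pad (N : ℕ) (l : List (Option Bool)) : parse (pad N (encO l)) = blocks l := by
  unfold parse pad
  rw [List.foldl_append, foldl_ostep, (foldl_ostep_false _ _).1]
  simp

section

variable {γ : Type} [Enc γ]

theorem poly_encO {l : γ → List (Option Bool)} (hl : PolyFn l) : PolyFn (fun c => encO (l c)) := by
  refine PolyFn.flatMap (f := fun (_ : γ) (o : Option Bool) => optBits o) ?_ hl
  refine PolyFn.optionCase (l := fun p : γ × Option Bool => p.2) (f := fun _ => [false, true])
    (g := fun _ b => [true, b]) PolyFn.snd (PolyFn.const _)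
    (PolyFn.cons (PolyFn.const true) (PolyFn.cons PolyFn.snd (PolyFn.const []))) ?_ ?_
  · rintro ⟨c, o⟩ h
    change o = none at h
    subst h; rfl
  · rintro ⟨c, o⟩ b h
    change o = some b at h
    subst h; rfl

theorem poly_pad {N : γ → ℕ} {l : γ → List Bool} (hN : PolyFn N) (hl : PolyFn l) :
    PolyFn (fun c => pad (N c) (l c)) :=
  PolyFn.append hl (PolyFn.replicate (PolyFn.sub hN (PolyFn.length hl)) (PolyFn.const false))

theorem poly_ostep {s : γ → ℕ × List (Option Bool)} {b : γ → Bool}
    (hs : PolyFn s) (hb : PolyFn b) : PolyFn (fun c => ostep (s c) (b c)) := by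
  unfold ostep
  have h1 : PolyFn (fun c => (s c).1) := PolyFn.fst.comp hs
  have h2 : PolyFn (fun c => (s c).2) := PolyFn.snd.comp hs
  have hbt : PolyFn (fun c => decide (b c = true)) := hb.of_eq fun c => by simp
  refine PolyFn.ite (PolyFn.decide_eq_nat h1 (PolyFn.const 0)) ?_ ?_
  · exact PolyFn.ite hbt ((PolyFn.const 1).pair h2) ((PolyFn.const 2).pair h2)
  · refine PolyFn.ite (PolyFn.decide_eq_nat h1 (PolyFn.const 1)) ((PolyFn.const 0).pair
      (PolyFn.cons (PolyFn.some hb) h2)) ?_
    exact PolyFn.ite hbt ((PolyFn.const 0).pair (PolyFn.cons (PolyFn.const none) h2))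
      ((PolyFn.const 0).pair h2)

theorem size_ostep (s : ℕ × List (Option Bool)) (b : Bool) :
    size (ostep s b) ≤ size s + 8 := by
  obtain ⟨n, l⟩ := s
  have hb := size_bool b
  unfold ostep
  split_ifs with h1 h2 h2 h2
  · change n = 0 at h1
    subst h1
    simp only [size_prod, size_nat]
    omega
  · change n = 0 at h1
    subst h1
    simp only [size_prod, size_nat]
    omega
  · simp only [size_prod, size_nat, size_list_cons, size_some]
    omega
  · simp only [size_prod, size_nat, size_list_cons, size_none]
    omega
  · simp only [size_prod, size_nat]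
    omega

theorem poly_parse {l : γ → List Bool} (hl : PolyFn l) : PolyFn (fun c => parse (l c)) :=
  PolyFn.blocks (PolyFn.reverse (PolyFn.snd.comp (poly_foldl_bits (0, [])
    (poly_ostep PolyFn.fst PolyFn.snd) size_ostep hl)))

end

/-- three blocks -/
def w3 (m : ℕ) (a b : List Bool) : List (Option Bool) :=
  (List.replicate m true).map some ++ none :: (a.map some ++ none :: b.map some)

/-- four blocks -/
def w4 (m : ℕ) (a b y : List Bool) : List (Option Bool) :=
  (List.replicate m true).map some ++ none :: (a.map some ++ none :: (b.map some ++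
    none :: y.map some))

theorem blocks_w3 (m : ℕ) (a b : List Bool) :
    blocks (w3 m a b) = [List.replicate m true, a, b] := by
  unfold w3
  rw [blocks_cons, blocks_cons, blocks_some]

theorem blocks_w4 (m : ℕ) (a b y : List Bool) :
    blocks (w4 m a b y) = [List.replicate m true, a, b, y] := by
  unfold w4
  rw [blocks_cons, blocks_cons, blocks_cons, blocks_some]

theorem w3_length (m : ℕ) (a b : List Bool) : (w3 m a b).length = m + a.length + b.length + 2 := by
  simp [w3]; omega

theorem w4_length (m : ℕ) (a b y : List Bool) :
    (w4 m a b y).length = m + a.length + b.length + y.length + 3 := by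
  simp [w4]; omega

/-- the short inputs -/
def S0 (m : ℕ) (a b : List Bool) : List Bool := pad (6 * m + 4) (encO (w3 m a b))

/-- the long inputs -/
def S1 (Q : Polynomial ℕ) (m : ℕ) (a b y : List Bool) : List Bool :=
  pad (6 * m + 6 + 2 * Q.eval m) (encO (w4 m a b y))

theorem S0_length {m : ℕ} {a b : List Bool} (ha : a.length ≤ m) (hb : b.length ≤ m) :
    (S0 m a b).length = 6 * m + 4 := by
  apply pad_length
  rw [encO_length, w3_length]
  omega

theorem S1_length {Q : Polynomial ℕ} {m : ℕ} {a b y : List Bool} (ha : a.length ≤ m)
    (hb : b.length ≤ m) (hy : y.length ≤ Q.eval m) :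
    (S1 Q m a b y).length = 6 * m + 6 + 2 * Q.eval m := by
  apply pad_length
  rw [encO_length, w4_length]
  omega

theorem parse_S0 (m : ℕ) (a b : List Bool) : parse (S0 m a b) = [List.replicate m true, a, b] := by
  unfold S0
  rw [parse_pad, blocks_w3]

theorem parse_S1 (Q : Polynomial ℕ) (m : ℕ) (a b y : List Bool) :
    parse (S1 Q m a b y) = [List.replicate m true, a, b, y] := by
  unfold S1
  rw [parse_pad, blocks_w4]

section

variable {γ : Type} [Enc γ]

theorem poly_S0 {m : γ → ℕ} {a b : γ → List Bool} (hm : PolyFn m) (ha : PolyFn a)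
    (hb : PolyFn b) : PolyFn (fun c => S0 (m c) (a c) (b c)) := by
  have hs : ∀ {x : γ → List Bool}, PolyFn x → PolyFn (fun c => (x c).map some) := fun {x} hx =>
    PolyFn.map (f := fun (_ : γ) (b : Bool) => some b) (PolyFn.some PolyFn.snd) hx
  have hn : PolyFn (fun _ : γ => (none : Option Bool)) := PolyFn.const none
  refine poly_pad (PolyFn.add (PolyFn.mul (PolyFn.const 6) hm) (PolyFn.const 4)) (poly_encO ?_)
  exact PolyFn.append (hs (PolyFn.replicate hm (PolyFn.const true)))
    (PolyFn.cons hn (PolyFn.append (hs ha) (PolyFn.cons hn (hs hb))))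

theorem poly_S1 (Q : Polynomial ℕ) {m : γ → ℕ} {a b y : γ → List Bool} (hm : PolyFn m)
    (ha : PolyFn a) (hb : PolyFn b) (hy : PolyFn y) :
    PolyFn (fun c => S1 Q (m c) (a c) (b c) (y c)) := by
  have hs : ∀ {x : γ → List Bool}, PolyFn x → PolyFn (fun c => (x c).map some) := fun {x} hx =>
    PolyFn.map (f := fun (_ : γ) (b : Bool) => some b) (PolyFn.some PolyFn.snd) hx
  have hn : PolyFn (fun _ : γ => (none : Option Bool)) := PolyFn.const none
  refine poly_pad (PolyFn.add (PolyFn.add (PolyFn.mul (PolyFn.const 6) hm) (PolyFn.const 6))
    (PolyFn.mul (PolyFn.const 2) (poly_eval Q hm))) (poly_encO ?_)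
  exact PolyFn.append (hs (PolyFn.replicate hm (PolyFn.const true)))
    (PolyFn.cons hn (PolyFn.append (hs ha) (PolyFn.cons hn (PolyFn.append (hs hb)
      (PolyFn.cons hn (hs hy))))))

end

/-! ### Witnesses as paths of a fixed length -/

/-- remove a leading `false` -/
def dropF (l : List Bool) : List Bool := if l.headD true = false then l.tail else l

/-- remove the leading `false`s and one `true` -/
def strip (l : List Bool) : List Bool := (dropF^[l.length] l).tail

theorem dropF_iter (j : ℕ) (w : List Bool) : ∀ n, j ≤ n →
    dropF^[n] (List.replicate j false ++ true :: w) = true :: w := by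
  induction j with
  | zero =>
    intro n _
    induction n with
    | zero => rfl
    | succ n ih =>
      rw [Function.iterate_succ_apply]
      exact ih (by omega)
  | succ j ih =>
    intro n hn
    obtain ⟨n, rfl⟩ : ∃ n', n = n' + 1 := ⟨n - 1, by omega⟩
    rw [Function.iterate_succ_apply]
    exact ih n (by omega)

theorem strip_spec (j : ℕ) (w : List Bool) :
    strip (List.replicate j false ++ true :: w) = w := by
  unfold strip
  rw [dropF_iter j w _ (by simp)]
  rfl

theorem exists_path {Q : ℕ} {w : List Bool} (h : w.length < Q) :
    ∃ y : List Bool, y.length = Q ∧ strip y = w := by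
  refine ⟨List.replicate (Q - 1 - w.length) false ++ true :: w, ?_, strip_spec _ _⟩
  simp
  omega

theorem poly_strip {γ : Type} [Enc γ] {l : γ → List Bool} (hl : PolyFn l) :
    PolyFn (fun c => strip (l c)) := by
  refine PolyFn.tail ?_
  obtain ⟨g, hg, hgs⟩ := hl.size_le
  refine PolyFn.iterate (step := fun (_ : γ) (l : List Bool) => dropF l) (init := l)
    (cnt := fun c => (l c).length) ?_ hl (PolyFn.length hl) ?_
  · unfold dropF
    refine PolyFn.ite ?_ (PolyFn.tail PolyFn.snd) PolyFn.snd
    exact (PolyFn.not (PolyFn.headD PolyFn.snd (PolyFn.const true))).of_eq fun c => by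
      cases c.2.headD true <;> rfl
  · refine ⟨g, hg, ?_⟩
    intro c i _
    have key : ∀ (i : ℕ) (l : List Bool), size (dropF^[i] l) ≤ size l := by
      intro i
      induction i with
      | zero => intro l; exact le_rfl
      | succ i ih =>
        intro l
        rw [Function.iterate_succ_apply]
        refine (ih _).trans ?_
        unfold dropF
        split_ifs
        · cases l with
          | nil => exact le_rfl
          | cons a t => simp only [List.tail_cons, size_list_cons]; omega
        · exact le_rfl
    exact (key i _).trans (hgs c)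

end Pool.Agent.Lib.MP_d5150c_lc
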